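import Pool.Agent.Lib_helper21.AV.Defs2

/-!
# AVK: all the moments of `2 ^ rank`, definitions

The index set `V` of AV is replaced by a finite type `ι`, the weight `1 / 4` by a number `α`.
-/

set_option autoImplicit false

namespace Pool.Agent.AVK

open Finset
open Pool.Agent.AV (om js Lam K4 n4)

/-- weight of one variable: `α ^ ω(m)` on the odd squarefree numbers -/
noncomputable def gwa (α : ℝ) (m : ℕ) : ℝ := if Squarefree m ∧ Odd m then α ^ om m else 0

/-- exactly one of the two symbols occurs -/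
def lkg {ι : Type} (oc : ι → ι → Bool) (u v : ι) : Bool := xor (oc u v) (oc v u)

/-- factor of the ordered pair `u, v` -/
noncomputable def phg {ι : Type} (oc : ι → ι → Bool) (u v : ι) (a b : ℕ) : ℝ :=
  (if Nat.Coprime a b then 1 else 0) * (if oc u v then js b a else 1)

/-- weight of a tuple -/
noncomputable def wtg {ι : Type} [Fintype ι] [DecidableEq ι] (α : ℝ) (oc : ι → ι → Bool)
    (κ : ι → ℤ) (D : ι → ℕ) : ℝ :=
  (∏ u, gwa α (D u) * js (κ u) (D u)) * ∏ u, ∏ v ∈ univ.erase u, phg oc u v (D u) (D v)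

/-- sum over the factorisations of `n` -/
noncomputable def SSg {ι : Type} [Fintype ι] [DecidableEq ι] (α : ℝ) (oc : ι → ι → Bool)
    (κ : ι → ℤ) (n : ℕ) : ℝ :=
  ∑ D ∈ (Fintype.piFinset fun _ : ι => n.divisors).filter (fun D => ∏ u, D u = n), wtg α oc κ D

/-- smoothed sum over a box -/
noncomputable def MSg {ι : Type} [Fintype ι] [DecidableEq ι] (α : ℝ) (oc : ι → ι → Bool)
    (κ : ι → ℤ) (X : ℝ) (A : ι → Finset ℕ) : ℝ :=
  ∑ D ∈ Fintype.piFinset A, wtg α oc κ D * Lam (Real.log ((∏ u, (D u : ℝ)) / X))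

/-- the factor of the weight which depends on the variable `u` -/
noncomputable def fug {ι : Type} [Fintype ι] [DecidableEq ι] (α : ℝ) (oc : ι → ι → Bool)
    (κ : ι → ℤ) (D : ι → ℕ) (u : ι) (m : ℕ) : ℝ :=
  gwa α m * (js (κ u) m * ∏ w ∈ univ.erase u, phg oc u w m (D w) * phg oc w u (D w) m)

/-- no two elements of `J` are linked -/
def Unl {ι : Type} (oc : ι → ι → Bool) (J : Finset ι) : Prop :=
  ∀ u ∈ J, ∀ v ∈ J, lkg oc u v = false

/-- the sign of a pair -/
noncomputable def sg {ι : Type} (oc : ι → ι → Bool) (u v : ι) : ℝ :=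
  if lkg oc u v then -1 else 1

/-- the matrix of the signs is `M` times an orthogonal matrix -/
def Had {ι : Type} [Fintype ι] [DecidableEq ι] (oc : ι → ι → Bool) (M : ℕ) : Prop :=
  ∀ u v, ∑ w, sg oc u w * sg oc v w = if u = v then (M : ℝ) ^ 2 else 0

/-- product of two structures -/
def ocp {ι₁ ι₂ : Type} (oc₁ : ι₁ → ι₁ → Bool) (oc₂ : ι₂ → ι₂ → Bool) (u v : ι₁ × ι₂) : Bool :=
  xor (oc₁ u.1 v.1) (oc₂ u.2 v.2)

/-- product of the constants -/
def kpp {ι₁ ι₂ : Type} (κ₁ : ι₁ → ℤ) (κ₂ : ι₂ → ℤ) (u : ι₁ × ι₂) : ℤ := n4 (κ₁ u.1 * κ₂ u.2)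

end Pool.Agent.AVK
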